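import Pool.Agent.H175G.Frame0

/-! BETA: `M` is the union of two cliques and isolated vertices. -/

namespace Pool.Agent.H175G

open Finset Classical

namespace BetaT07

variable {V : Type} {G : SimpleGraph V}

/-- traces on a clique are laminar -/
lemma laminar (hg : NoGem G) {Q N : Finset V} (hQ : Clq G Q) (hN : Ind G N) {n n' : V}
    (hn : n ∈ N) (hn' : n' ∈ N) :
    nb G Q n ⊆ nb G Q n' ∨ nb G Q n' ⊆ nb G Q n ∨ Disjoint (nb G Q n) (nb G Q n') := by
  by_contra hcon
  push Not at hcon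
  obtain ⟨h1, h2, h3⟩ := hcon
  rw [not_subset] at h1 h2
  rw [Finset.not_disjoint_iff] at h3
  obtain ⟨x, hx, hx'⟩ := h1
  obtain ⟨y, hy, hy'⟩ := h2
  obtain ⟨z, hz, hz'⟩ := h3
  rw [mem_nb] at hx hx' hy hy' hz hz'
  have a1 : ¬ G.Adj n' x := fun h => hx' ⟨hx.1, h⟩
  have a2 : ¬ G.Adj n y := fun h => hy' ⟨hy.1, h⟩
  have b1 := hx.2
  have b2 := hy.2
  have b3 := hz.2
  have b4 := hz'.2
  have c1 : x ≠ y := fun h => a2 (h ▸ b1)
  have c2 : z ≠ x := fun h => a1 (h ▸ b4)
  have c3 : z ≠ y := fun h => a2 (h ▸ b3)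
  have d1 := hQ x hx.1 y hy.1 c1
  have d2 := hQ z hz.1 x hx.1 c2
  have d3 := hQ z hz.1 y hy.1 c3
  have e1 := hN n hn n' hn'
  exact hg n x y n' z b3.symm d2 d3 b4.symm b1 d1 b2.symm a2 (fun h => a1 h.symm) e1

/-- all vertices of `N` missing exactly one vertex of `Q` miss the same one -/
lemma star_exists (hg : NoGem G) {Q N : Finset V} (hQ : Clq G Q) (hQ3 : 3 ≤ Q.card)
    (hN : Ind G N) : ∃ s : V, ∀ n ∈ N, (Q \ nb G Q n).card ≤ 1 → ∀ q ∈ Q, q ≠ s → G.Adj n q := by
  by_cases h0 : ∃ n0 ∈ N, (Q \ nb G Q n0).card = 1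
  · obtain ⟨n0, hn0, h1⟩ := h0
    obtain ⟨s, hs⟩ := Finset.card_eq_one.1 h1
    refine ⟨s, fun n hn hc q hq hqs => ?_⟩
    by_contra hnq
    have hsQ : s ∈ Q ∧ ¬ G.Adj n0 s := by
      have : s ∈ Q \ nb G Q n0 := by rw [hs]; exact mem_singleton_self s
      rw [mem_sdiff, mem_nb] at this
      exact ⟨this.1, fun h => this.2 ⟨this.1, h⟩⟩
    have hqm : q ∈ Q \ nb G Q n := by
      rw [mem_sdiff, mem_nb]
      exact ⟨hq, fun h => hnq h.2⟩
    have honly : ∀ z ∈ Q, ¬ G.Adj n z → z = q := by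
      intro z hz hnz
      have hzm : z ∈ Q \ nb G Q n := by
        rw [mem_sdiff, mem_nb]
        exact ⟨hz, fun h => hnz h.2⟩
      exact Finset.card_le_one.1 hc z hzm q hqm
    have honly0 : ∀ z ∈ Q, ¬ G.Adj n0 z → z = s := by
      intro z hz hnz
      have hzm : z ∈ Q \ nb G Q n0 := by
        rw [mem_sdiff, mem_nb]
        exact ⟨hz, fun h => hnz h.2⟩
      rw [hs] at hzm
      exact mem_singleton.1 hzm
    obtain ⟨z, hz, hzn⟩ : ∃ z ∈ Q, z ∉ ({q, s} : Finset V) := by
      by_contra hcon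
      push Not at hcon
      have : Q.card ≤ ({q, s} : Finset V).card := card_le_card hcon
      have h2 : ({q, s} : Finset V).card ≤ 2 := card_le_two
      omega
    simp only [mem_insert, mem_singleton, not_or] at hzn
    have a1 : G.Adj n z := by
      by_contra h
      exact hzn.1 (honly z hz h)
    have a2 : G.Adj n0 z := by
      by_contra h
      exact hzn.2 (honly0 z hz h)
    have a3 : G.Adj n s := by
      by_contra h
      exact hqs (honly s hsQ.1 h).symm
    have a4 : G.Adj n0 q := by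
      by_contra h
      exact hqs (honly0 q hq h)
    rcases laminar hg hQ hN hn hn0 with h | h | h
    · exact hsQ.2 (mem_nb.1 (h (mem_nb.2 ⟨hsQ.1, a3⟩))).2
    · exact hnq (mem_nb.1 (h (mem_nb.2 ⟨hq, a4⟩))).2
    · exact (Finset.disjoint_left.1 h) (mem_nb.2 ⟨hz, a1⟩) (mem_nb.2 ⟨hz, a2⟩)
  · by_cases hQe : Q.Nonempty
    · obtain ⟨s, _⟩ := hQe
      refine ⟨s, fun n hn hc q hq _ => ?_⟩
      by_contra hnq
      apply h0
      refine ⟨n, hn, le_antisymm hc ?_⟩
      rw [Nat.succ_le_iff, card_pos]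
      exact ⟨q, by rw [mem_sdiff, mem_nb]; exact ⟨hq, fun h => hnq h.2⟩⟩
    · rw [not_nonempty_iff_eq_empty] at hQe
      rw [hQe] at hQ3
      simp at hQ3

/-- the rule of BIP -/
lemma bip_rule (hp : NoP23 G) {I N : Finset V} (hI : Ind G I) (hN : Ind G N) :
    ∀ m ∈ I, ∀ m' ∈ I, 2 ≤ (nb G N m \ nb G N m').card → nb G N m' ⊆ nb G N m := by
  intro m hm m' hm' h2
  obtain ⟨n1, hn1, n2, hn2, hne⟩ := Finset.one_lt_card.1 h2
  rw [mem_sdiff, mem_nb, mem_nb] at hn1 hn2
  intro n0 hn0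
  rw [mem_nb] at hn0 ⊢
  refine ⟨hn0.1, ?_⟩
  by_contra hcon
  have a1 : ¬ G.Adj m' n1 := fun h => hn1.2 ⟨hn1.1.1, h⟩
  have a2 : ¬ G.Adj m' n2 := fun h => hn2.2 ⟨hn2.1.1, h⟩
  exact hp m' n0 n1 m n2 hn0.2 hn1.1.2.symm hn2.1.2 hne (hN n1 hn1.1.1 n2 hn2.1.1) a1
    (hI m' hm' m hm) a2 (hN n0 hn0.1 n1 hn1.1.1) (fun h => hcon h.symm) (hN n0 hn0.1 n2 hn2.1.1)

/-- a vertex of `N` with a neighbour in `Q` and missing two vertices of `Q` misses at most one
vertex of `P` -/
lemma miss_le_one (hp : NoP23 G) {P Q : Finset V} (hP : Clq G P) (hQ : Clq G Q)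
    (hPQ : Anti G P Q) {n : V} (h1 : 2 ≤ (Q \ nb G Q n).card) (h2 : (nb G Q n).Nonempty) :
    (P \ nb G P n).card ≤ 1 := by
  by_contra hcon
  push Not at hcon
  obtain ⟨y, hy, y', hy', hyy⟩ := Finset.one_lt_card.1 hcon
  obtain ⟨q, hq, q', hq', hqq⟩ := Finset.one_lt_card.1 h1
  obtain ⟨x, hx⟩ := h2
  rw [mem_sdiff, mem_nb] at hy hy' hq
  rw [mem_nb] at hx
  have a1 : ¬ G.Adj n y := fun h => hy.2 ⟨hy.1, h⟩
  have a2 : ¬ G.Adj n y' := fun h => hy'.2 ⟨hy'.1, h⟩
  have a3 : ¬ G.Adj n q := fun h => hq.2 ⟨hq.1, h⟩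
  have hxq : x ≠ q := fun h => a3 (h ▸ hx.2)
  have hnq : n ≠ q := by
    intro h
    subst h
    -- then `n ∈ Q`, adjacent to `x`; but `q' ∈ Q` is also adjacent to `n = q`
    rw [mem_sdiff, mem_nb] at hq'
    exact hq'.2 ⟨hq'.1, hQ n hq.1 q' hq'.1 hqq⟩
  exact hp y y' n x q (hP y hy.1 y' hy'.1 hyy) hx.2 (hQ x hx.1 q hq.1 hxq) hnq a3
    (fun h => a1 h.symm) (hPQ y hy.1 x hx.1) (hPQ y hy.1 q hq.1) (fun h => a2 h.symm)
    (hPQ y' hy'.1 x hx.1) (hPQ y' hy'.1 q hq.1)

/-- a vertex of `N` with a neighbour in `P` and missing two vertices of `Q` is anti to `I` -/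
lemma anti_I (hp : NoP23 G) {P Q I : Finset V} (hQ : Clq G Q)
    (hPQ : Anti G P Q) (hPI : Anti G P I) (hQI : Anti G Q I) (hd : Disjoint P I) {n : V}
    (h1 : 2 ≤ (Q \ nb G Q n).card) {p : V} (hpP : p ∈ P) (hnp : G.Adj n p) :
    ∀ i ∈ I, ¬ G.Adj n i := by
  intro i hi hni
  obtain ⟨q, hq, q', hq', hqq⟩ := Finset.one_lt_card.1 h1
  rw [mem_sdiff, mem_nb] at hq hq'
  have a3 : ¬ G.Adj n q := fun h => hq.2 ⟨hq.1, h⟩
  have a4 : ¬ G.Adj n q' := fun h => hq'.2 ⟨hq'.1, h⟩
  by_cases hpi : p = i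
  · subst hpi
    exact (Finset.disjoint_left.1 hd) hpP hi
  · exact hp q q' p n i (hQ q hq.1 q' hq'.1 hqq) hnp.symm hni hpi (hPI p hpP i hi)
      (fun h => hPQ p hpP q hq.1 h.symm) (fun h => a3 h.symm) (hQI q hq.1 i hi)
      (fun h => hPQ p hpP q' hq'.1 h.symm) (fun h => a4 h.symm) (hQI q' hq'.1 i hi)

/-- two sets without edges between them are disjoint if the first is a clique with two vertices -/
lemma disj_of_anti {P S : Finset V} (hP : Clq G P) (h2 : 2 ≤ P.card) (h : Anti G P S) :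
    Disjoint P S := by
  rw [Finset.disjoint_left]
  intro x hx hxS
  obtain ⟨y, hy, hyx⟩ := Finset.exists_mem_ne (s := P) (by omega) x
  exact h y hy x hxS (hP y hy x hx hyx)

/-- vertices of `N` which are partial on `Q` and miss at least two vertices -/
noncomputable def NP (G : SimpleGraph V) (Q N : Finset V) : Finset V :=
  N.filter (fun n => 2 ≤ (Q \ nb G Q n).card ∧ (nb G Q n).Nonempty)

lemma NP_sub (Q N : Finset V) : NP G Q N ⊆ N := filter_subset _ _

/-- width of one of the two parts -/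
lemma lam_part {KL : ℕ} (hL : ∀ (V : Type) (G : SimpleGraph V) (Q N : Finset V), Disjoint Q N →
      Clq G Q → Ind G N → (∀ n ∈ N, ∀ n' ∈ N, nb G Q n ⊆ nb G Q n' ∨ nb G Q n' ⊆ nb G Q n ∨
      Disjoint (nb G Q n) (nb G Q n')) → BD G KL (Q ∪ N))
    (hg : NoGem G) {Q N : Finset V} (hQ : Clq G Q) (hN : Ind G N) (hd : Disjoint Q N) (s : V) :
    BD G KL (Q.erase s ∪ NP G Q N) := by
  have h1 : BD G KL (Q ∪ N) := hL V G Q N hd hQ hN fun n hn n' hn' => laminar hg hQ hN hn hn'
  exact h1.sub (union_subset_union (erase_subset _ _) (NP_sub _ _))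

/-- outside `NP`, every vertex of `N` is complete or anticomplete to `Q \ {s}` -/
lemma dich {Q N : Finset V} {s : V}
    (hs : ∀ n ∈ N, (Q \ nb G Q n).card ≤ 1 → ∀ q ∈ Q, q ≠ s → G.Adj n q) {n : V} (hn : n ∈ N)
    (hn' : n ∉ NP G Q N) {q : V} (hq : q ∈ Q.erase s) (hnq : G.Adj n q) :
    ∀ q ∈ Q.erase s, G.Adj n q := by
  intro x hx
  by_cases h : (Q \ nb G Q n).card ≤ 1
  · exact hs n hn h x (mem_of_mem_erase hx) (ne_of_mem_erase hx)
  · exfalso
    apply hn'
    unfold NP
    rw [mem_filter]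
    exact ⟨hn, by omega, q, mem_nb.2 ⟨mem_of_mem_erase hq, hnq⟩⟩

/-- elements of `NP G Q N` are complete to `P \ {s}` and anticomplete to `I` -/
lemma NP_full (hp : NoP23 G) {P Q N : Finset V} (hP : Clq G P) (hQ : Clq G Q)
    (hPQ : Anti G P Q) {s : V}
    (hs : ∀ n ∈ N, (P \ nb G P n).card ≤ 1 → ∀ q ∈ P, q ≠ s → G.Adj n q) {n : V}
    (hn : n ∈ NP G Q N) : ∀ p ∈ P.erase s, G.Adj n p := by
  unfold NP at hn
  rw [mem_filter] at hn
  intro p hpP
  exact hs n hn.1 (miss_le_one hp hP hQ hPQ hn.2.1 hn.2.2) p (mem_of_mem_erase hpP)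
    (ne_of_mem_erase hpP)

lemma NP_antiI (hp : NoP23 G) {P Q I N : Finset V} (hP : Clq G P) (hQ : Clq G Q)
    (hPQ : Anti G P Q) (hPI : Anti G P I) (hQI : Anti G Q I) (hP3 : 3 ≤ P.card) {n : V}
    (hn : n ∈ NP G Q N) : ∀ i ∈ I, ¬ G.Adj n i := by
  unfold NP at hn
  rw [mem_filter] at hn
  have h1 := miss_le_one hp hP hQ hPQ hn.2.1 hn.2.2
  obtain ⟨p, hpP, hnp⟩ : ∃ p ∈ P, G.Adj n p := by
    by_contra hcon
    push Not at hcon
    have : P \ nb G P n = P := by
      rw [Finset.sdiff_eq_self_iff_disjoint, Finset.disjoint_left]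
      intro x hx hx'
      exact hcon x hx (mem_nb.1 hx').2
    rw [this] at h1
    omega
  exact anti_I hp hQ hPQ hPI hQI (disj_of_anti hP (by omega) hPI) hn.2.1 hpP hnp

end BetaT07

open BetaT07 in
theorem beta_stmt (_hA : AttachStmt) (hT : TwoStmt) (hB : BipStmt) (hL : LamStmt)
    (hAl : AlphaStmt) : BetaStmt := by
  obtain ⟨B, hT⟩ := hT
  obtain ⟨KB, hB⟩ := hB
  obtain ⟨KL, hL⟩ := hL
  obtain ⟨KA, hAl⟩ := hAl
  refine ⟨max ((KA + 1) * 2 ^ 2) ((B (B KL KL (Fintype.card Bool)) KB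
    (Fintype.card (Bool × Bool × Bool × Bool)) + 1) * 2 ^ 2), ?_⟩
  intro V G hg hp v P Q I N hz hP hQ hI hPQ hPI hQI
  obtain ⟨hvM, hvN, hN, hvn⟩ := hz
  by_cases hP3 : P.card ≤ 2
  · refine BD.mono ?_ (le_max_left _ _)
    refine BD.of_sdiff (X := P) (c := 2) ?_ hP3
    have h := hAl V G hg hp v Q I N ⟨fun m hm => hvM m (by
      simp only [mem_union] at hm ⊢; tauto), hvN, hN, hvn⟩ hQ hI hQI
    exact h.sub (by intro x hx; simp only [mem_union, mem_sdiff] at hx ⊢; tauto)
  by_cases hQ3 : Q.card ≤ 2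
  · refine BD.mono ?_ (le_max_left _ _)
    refine BD.of_sdiff (X := Q) (c := 2) ?_ hQ3
    have h := hAl V G hg hp v P I N ⟨fun m hm => hvM m (by
      simp only [mem_union] at hm ⊢; tauto), hvN, hN, hvn⟩ hP hI hPI
    exact h.sub (by intro x hx; simp only [mem_union, mem_sdiff] at hx ⊢; tauto)
  push Not at hP3 hQ3
  have hMN : ∀ x, x ∈ P ∪ Q ∪ I → x ∉ N := fun x hx hxN => hvN x hxN (hvM x hx)
  have hPN : ∀ x ∈ P, x ∉ N := fun x hx => hMN x (by simp only [mem_union]; tauto)
  have hQN : ∀ x ∈ Q, x ∉ N := fun x hx => hMN x (by simp only [mem_union]; tauto)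
  have hIN : ∀ x ∈ I, x ∉ N := fun x hx => hMN x (by simp only [mem_union]; tauto)
  have hPQd : Disjoint P Q := disj_of_anti hP (by omega) hPQ
  have hPId : Disjoint P I := disj_of_anti hP (by omega) hPI
  have hQId : Disjoint Q I := disj_of_anti hQ (by omega) hQI
  have hQP : Anti G Q P := fun x hx y hy h => hPQ y hy x hx h.symm
  obtain ⟨sp, hsp⟩ := star_exists hg hP hP3 hN
  obtain ⟨sq, hsq⟩ := star_exists hg hQ hQ3 hN
  refine BD.mono ?_ (le_max_right _ _)
  refine BD.of_sdiff (X := {sp, sq}) (c := 2) ?_ card_le_two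
  -- the parts
  have hA1 : BD G KL (Q.erase sq ∪ NP G Q N) :=
    lam_part hL hg hQ hN (Finset.disjoint_left.2 hQN) sq
  have hA2 : BD G KL (P.erase sp ∪ NP G P N) :=
    lam_part hL hg hP hN (Finset.disjoint_left.2 hPN) sp
  have hA3 : BD G KB (I ∪ N) := hB V G I N (Finset.disjoint_left.2 hIN) hI hN
    (bip_rule hp hI hN)
  -- `NP G P N` and `NP G Q N` are disjoint
  have hNPd : ∀ n, n ∈ NP G Q N → n ∉ NP G P N := by
    intro n hn hn'
    have h1 : 2 ≤ (Q \ nb G Q n).card ∧ (nb G Q n).Nonempty := (mem_filter.1 hn).2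
    have h2 : 2 ≤ (P \ nb G P n).card ∧ (nb G P n).Nonempty := (mem_filter.1 hn').2
    have h3 := miss_le_one hp hP hQ hPQ h1.1 h1.2
    omega
  have h12 : BD G (B KL KL (Fintype.card Bool))
      ((Q.erase sq ∪ NP G Q N) ∪ (P.erase sp ∪ NP G P N)) := by
    refine hT V G Bool KL KL _ _ (fun z => decide (z ∈ N)) (fun a b => a ≠ b) ?_ hA1 hA2 ?_
    · rw [Finset.disjoint_left]
      intro x hx hx'
      rw [mem_union] at hx hx'
      rcases hx with hx | hx
      · rcases hx' with hx' | hx'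
        · exact (Finset.disjoint_left.1 hPQd) (mem_of_mem_erase hx') (mem_of_mem_erase hx)
        · exact hQN x (mem_of_mem_erase hx) (NP_sub _ _ hx')
      · rcases hx' with hx' | hx'
        · exact hPN x (mem_of_mem_erase hx') (NP_sub _ _ hx)
        · exact hNPd x hx hx'
    · intro x hx y hy
      rw [mem_union] at hx hy
      rcases hx with hx | hx
      · have e1 : x ∉ N := hQN x (mem_of_mem_erase hx)
        rcases hy with hy | hy
        · have e2 : y ∉ N := hPN y (mem_of_mem_erase hy)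
          simp only [e1, e2, decide_false, ne_eq, not_true_eq_false, iff_false]
          exact hQP x (mem_of_mem_erase hx) y (mem_of_mem_erase hy)
        · have e2 : y ∈ N := NP_sub _ _ hy
          simp only [e1, e2, decide_false, decide_true, ne_eq, Bool.false_eq_true,
            not_false_eq_true, iff_true]
          exact (NP_full hp hQ hP hQP hsq hy x hx).symm
      · have e1 : x ∈ N := NP_sub _ _ hx
        rcases hy with hy | hy
        · have e2 : y ∉ N := hPN y (mem_of_mem_erase hy)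
          simp only [e1, e2, decide_false, decide_true, ne_eq, Bool.true_eq_false,
            not_false_eq_true, iff_true]
          exact NP_full hp hP hQ hPQ hsp hx y hy
        · have e2 : y ∈ N := NP_sub _ _ hy
          simp only [e1, e2, decide_true, ne_eq, not_true_eq_false, iff_false]
          exact hN x e1 y e2
  set R : Finset V := I ∪ ((N \ NP G Q N) \ NP G P N) with hR
  have h3 : BD G KB R := hA3.sub (by
    intro x hx
    rw [hR] at hx
    simp only [mem_union, mem_sdiff] at hx ⊢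
    tauto)
  have h123 : BD G (B (B KL KL (Fintype.card Bool)) KB (Fintype.card (Bool × Bool × Bool × Bool)))
      (((Q.erase sq ∪ NP G Q N) ∪ (P.erase sp ∪ NP G P N)) ∪ R) := by
    refine hT V G (Bool × Bool × Bool × Bool) _ KB _ _
      (fun z => (decide (z ∈ Q.erase sq), decide (z ∈ P.erase sp),
        decide (z ∈ N ∧ ∀ q ∈ Q.erase sq, G.Adj z q),
        decide (z ∈ N ∧ ∀ q ∈ P.erase sp, G.Adj z q)))
      (fun l l' => (l.1 = true ∧ l'.2.2.1 = true) ∨ (l.2.1 = true ∧ l'.2.2.2 = true)) ?_ h12 h3 ?_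
    · rw [Finset.disjoint_left]
      intro x hx hx'
      rw [hR] at hx'
      simp only [mem_union, mem_sdiff] at hx hx'
      rcases hx' with hx' | hx'
      · rcases hx with (hx | hx) | (hx | hx)
        · exact (Finset.disjoint_left.1 hQId) (mem_of_mem_erase hx) hx'
        · exact hIN x hx' (NP_sub _ _ hx)
        · exact (Finset.disjoint_left.1 hPId) (mem_of_mem_erase hx) hx'
        · exact hIN x hx' (NP_sub _ _ hx)
      · rcases hx with (hx | hx) | (hx | hx)
        · exact hQN x (mem_of_mem_erase hx) hx'.1.1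
        · exact hx'.1.2 hx
        · exact hPN x (mem_of_mem_erase hx) hx'.1.1
        · exact hx'.2 hx
    · intro x hx y hy
      simp only [decide_eq_true_eq]
      rw [hR] at hy
      simp only [mem_union, mem_sdiff] at hx hy
      rcases hx with (hx | hx) | (hx | hx)
      · -- `x ∈ Q`
        have e1 : x ∉ P.erase sp := fun h =>
          (Finset.disjoint_left.1 hPQd) (mem_of_mem_erase h) (mem_of_mem_erase hx)
        rcases hy with hy | hy
        · have e2 : y ∉ N := hIN y hy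
          have e3 := hQI x (mem_of_mem_erase hx) y hy
          simp only [e1, e2, e3, false_and, and_false, or_self]
        · simp only [hx, e1, hy.1.1, true_and, false_and, or_false]
          constructor
          · intro h
            exact dich hsq hy.1.1 hy.1.2 hx h.symm
          · intro h
            exact (h x hx).symm
      · -- `x ∈ NP G Q N`
        have hxN : x ∈ N := NP_sub _ _ hx
        have e1 : x ∉ Q.erase sq := fun h => hQN x (mem_of_mem_erase h) hxN
        have e2 : x ∉ P.erase sp := fun h => hPN x (mem_of_mem_erase h) hxN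
        simp only [e1, e2, false_and, or_self, iff_false]
        rcases hy with hy | hy
        · exact NP_antiI hp hP hQ hPQ hPI hQI hP3 hx y hy
        · exact hN x hxN y hy.1.1
      · -- `x ∈ P`
        have e1 : x ∉ Q.erase sq := fun h =>
          (Finset.disjoint_left.1 hPQd) (mem_of_mem_erase hx) (mem_of_mem_erase h)
        rcases hy with hy | hy
        · have e2 : y ∉ N := hIN y hy
          have e3 := hPI x (mem_of_mem_erase hx) y hy
          simp only [e1, e2, e3, false_and, and_false, or_self]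
        · simp only [hx, e1, hy.1.1, true_and, false_and, false_or]
          constructor
          · intro h
            exact dich hsp hy.1.1 hy.2 hx h.symm
          · intro h
            exact (h x hx).symm
      · -- `x ∈ NP G P N`
        have hxN : x ∈ N := NP_sub _ _ hx
        have e1 : x ∉ Q.erase sq := fun h => hQN x (mem_of_mem_erase h) hxN
        have e2 : x ∉ P.erase sp := fun h => hPN x (mem_of_mem_erase h) hxN
        simp only [e1, e2, false_and, or_self, iff_false]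
        rcases hy with hy | hy
        · exact NP_antiI hp hQ hP hQP hQI hPI hQ3 hx y hy
        · exact hN x hxN y hy.1.1
  refine h123.sub ?_
  intro x hx
  rw [hR]
  simp only [mem_union, mem_sdiff, mem_insert, mem_singleton, not_or, mem_erase] at hx ⊢
  tauto

end Pool.Agent.H175G
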